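import Pool.Agent.H12.HF.Stmt
import Pool.Agent.H12.HS.All

/-!
# The final theorem in terms of the short definitions
-/

namespace Pool.Agent.H12.HF

open CategoryTheory AlgebraicGeometry TensorProduct

universe u

theorem isDuValEquation_iff (k : Type u) [Field k] (f : MvPowerSeries (Fin 3) k) :
    IsDuValEquation k f ↔ Pool.Agent.H12.HS.IsDuValEquation k f := by
  constructor
  · rintro (⟨n, hn⟩ | ⟨n, hn⟩ | _ | _ | _)
    · exact .A n hn
    · exact .D n hn
    · exact .E6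
    · exact .E7
    · exact .E8
  · rintro (⟨n, hn⟩ | ⟨n, hn⟩ | _ | _ | _)
    · exact .A n hn
    · exact .D n hn
    · exact .E6
    · exact .E7
    · exact .E8

theorem isDuVal_iff (k R : Type u) [Field k] [CommRing R] :
    IsDuVal k R ↔ Pool.Agent.H12.HS.IsDuVal k R := by
  constructor
  · rintro ⟨f, hf, e⟩
    exact ⟨f, (isDuValEquation_iff k f).1 hf, e⟩
  · rintro ⟨f, hf, e⟩
    exact ⟨f, (isDuValEquation_iff k f).2 hf, e⟩

theorem nonDuVal (k : Type u) [Field k] [IsAlgClosed k] [CharZero k] :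
    IsNonDuValPoint k (origin k) := by
  obtain ⟨h1, h2, h3⟩ := (Pool.Agent.H12.HS.final k).2.2.2.2.1
  refine ⟨h1, h2, ?_⟩
  intro h
  exact h3 ((isDuVal_iff k _).1 h)

theorem normalSurface (k : Type u) [Field k] [IsAlgClosed k] [CharZero k] :
    IsNormalSurface k (SurfRing k) := by
  obtain ⟨h1, h2, h3, h4, -⟩ := Pool.Agent.H12.HS.final k
  exact ⟨h1, h2, h3, h4⟩

theorem hilbPt (k : Type u) [Field k] [IsAlgClosed k] [CharZero k] (d : ℕ) (hd : 1 ≤ d) :
    IrreducibleSpace (HilbPt k (SurfRing k) d) :=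
  (Pool.Agent.H12.HS.final k).2.2.2.2.2.1 d hd

theorem hilbScheme (k : Type u) [Field k] [IsAlgClosed k] [CharZero k] (d : ℕ) (hd : 1 ≤ d)
    (H : Scheme.{u}) (s : H ⟶ Spec (CommRingCat.of k))
    (hH : IsHilbertScheme k (SurfRing k) d H s) : IrreducibleSpace H := by
  refine (Pool.Agent.H12.HS.final k).2.2.2.2.2.2 d hd H s ?_
  obtain ⟨fam, h1, h2⟩ := hH
  exact ⟨fam, h1, fun R R' _ _ _ _ φ f f' h => h2 R R' φ f f' h⟩

end Pool.Agent.H12.HF
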