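import Mathlib

/-!
# Statement: Hilbert schemes of points, du Val singularities, the surface z^2 = x^4 + y^4
-/

namespace Pool.Agent.H12.HF

open CategoryTheory AlgebraicGeometry TensorProduct

universe u

/-! ### du Val singularities -/

section DuVal
variable (k : Type u) [Field k]

/-- `A_n`: `x^2 + y^2 + z^(n+1)` -/
noncomputable def eqA (n : ℕ) : MvPowerSeries (Fin 3) k :=
  MvPowerSeries.X 0 ^ 2 + MvPowerSeries.X 1 ^ 2 + MvPowerSeries.X 2 ^ (n + 1)

/-- `D_n`: `x^2 + y^2 z + z^(n-1)` -/
noncomputable def eqD (n : ℕ) : MvPowerSeries (Fin 3) k :=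
  MvPowerSeries.X 0 ^ 2 + MvPowerSeries.X 1 ^ 2 * MvPowerSeries.X 2 + MvPowerSeries.X 2 ^ (n - 1)

/-- `E_6`: `x^2 + y^3 + z^4` -/
noncomputable def eqE6 : MvPowerSeries (Fin 3) k :=
  MvPowerSeries.X 0 ^ 2 + MvPowerSeries.X 1 ^ 3 + MvPowerSeries.X 2 ^ 4

/-- `E_7`: `x^2 + y^3 + y z^3` -/
noncomputable def eqE7 : MvPowerSeries (Fin 3) k :=
  MvPowerSeries.X 0 ^ 2 + MvPowerSeries.X 1 ^ 3 + MvPowerSeries.X 1 * MvPowerSeries.X 2 ^ 3

/-- `E_8`: `x^2 + y^3 + z^5` -/
noncomputable def eqE8 : MvPowerSeries (Fin 3) k :=
  MvPowerSeries.X 0 ^ 2 + MvPowerSeries.X 1 ^ 3 + MvPowerSeries.X 2 ^ 5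

/-- the equations of the du Val singularities in `k[[x,y,z]]` -/
inductive IsDuValEquation : MvPowerSeries (Fin 3) k → Prop
  | A (n : ℕ) (hn : 1 ≤ n) : IsDuValEquation (eqA k n)
  | D (n : ℕ) (hn : 4 ≤ n) : IsDuValEquation (eqD k n)
  | E6 : IsDuValEquation (eqE6 k)
  | E7 : IsDuValEquation (eqE7 k)
  | E8 : IsDuValEquation (eqE8 k)

/-- a ring is the complete local ring of a du Val singularity: it is isomorphic to
`k[[x,y,z]]/(f)` for one of the equations `f` -/
def IsDuVal (R : Type u) [CommRing R] : Prop :=
  ∃ f : MvPowerSeries (Fin 3) k, IsDuValEquation k f ∧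
    Nonempty (R ≃+* (MvPowerSeries (Fin 3) k ⧸ Ideal.span {f}))

end DuVal

/-- the completed local ring of `Spec A` at a prime ideal -/
abbrev CompletedLocalRing {A : Type u} [CommRing A] (m : Ideal A) [m.IsPrime] : Type u :=
  AdicCompletion (IsLocalRing.maximalIdeal (Localization.AtPrime m)) (Localization.AtPrime m)

/-- `m` is a singular point of `Spec A` which is not du Val -/
def IsNonDuValPoint (k : Type u) {A : Type u} [Field k] [CommRing A] (m : Ideal A) : Prop :=
  ∃ _ : m.IsMaximal, ¬ IsRegularLocalRing (Localization.AtPrime m) ∧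
    ¬ IsDuVal k (CompletedLocalRing m)

/-- `Spec A` is an integral normal affine surface over `k` -/
def IsNormalSurface (k A : Type u) [Field k] [CommRing A] [Algebra k A] : Prop :=
  IsDomain A ∧ IsIntegrallyClosed A ∧ Algebra.FiniteType k A ∧ ringKrullDim A = 2

/-! ### Closed points of the Hilbert scheme, with the Zariski topology -/

/-- The set of closed points of the Hilbert scheme of `d` points of `Spec A`: ideals `I` of `A`
with `dim_k A/I = d`. -/
def HilbPt (k A : Type u) [Field k] [CommRing A] [Algebra k A] (d : ℕ) : Type u :=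
  {I : Ideal A // Module.Finite k (A ⧸ I) ∧ Module.finrank k (A ⧸ I) = d}

/-- For `w : Fin d → A` and a polynomial `F` in variables indexed by `A × Fin d`: the set of
the `I` such that `w` is a basis of `A/I` and `F` does not vanish at the coordinates `c (a, i)`
of the classes `a = ∑ c (a, i) w_i` of the elements of `A`. -/
def basicOpen (k A : Type u) [Field k] [CommRing A] [Algebra k A] (d : ℕ) (w : Fin d → A)
    (F : MvPolynomial (A × Fin d) k) : Set (HilbPt k A d) :=
  {I | ∃ c : A × Fin d → k, (∀ a : A, a - ∑ i, c (a, i) • w i ∈ I.1) ∧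
    MvPolynomial.eval c F ≠ 0}

/-- The Zariski topology on the closed points of the Hilbert scheme: the charts are the sets of
the ideals modulo which a given `w` is a basis, with the structure constants as coordinates. -/
instance (k A : Type u) [Field k] [CommRing A] [Algebra k A] (d : ℕ) :
    TopologicalSpace (HilbPt k A d) :=
  TopologicalSpace.generateFrom {U | ∃ w F, U = basicOpen k A d w F}

/-! ### The Hilbert functor -/

/-- the ideal `I` of the `R`-algebra `B` defines a finite flat family of `d` points: `B/I` is a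
finite projective `R`-module of constant rank `d` -/
def IsFlatFamily (R B : Type u) [CommRing R] [CommRing B] [Algebra R B] (d : ℕ) (I : Ideal B) :
    Prop :=
  Module.Finite R (B ⧸ I) ∧ Module.Projective R (B ⧸ I) ∧
    ∀ p : PrimeSpectrum R, Module.rankAtStalk (R := R) (B ⧸ I) p = d

section Functor
variable (k A : Type u) [Field k] [CommRing A] [Algebra k A]

/-- the `R`-algebra `R ⊗ A` -/
def BaseChange (R : Type u) [CommRing R] [Algebra k R] : Type u := R ⊗[k] A

noncomputable instance (R : Type u) [CommRing R] [Algebra k R] : CommRing (BaseChange k A R) :=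
  Algebra.TensorProduct.instCommRing

noncomputable instance (R : Type u) [CommRing R] [Algebra k R] : Algebra R (BaseChange k A R) :=
  Algebra.TensorProduct.leftAlgebra

/-- the ring homomorphism `φ ⊗ 1` -/
noncomputable def baseMap {R R' : Type u} [CommRing R] [Algebra k R] [CommRing R'] [Algebra k R']
    (φ : R →ₐ[k] R') : BaseChange k A R →+* BaseChange k A R' :=
  (Algebra.TensorProduct.map φ (AlgHom.id k A)).toRingHom

/-- Flat families of `d` points on `Spec A`, parametrised by `Spec R` -/
def HilbFam (R : Type u) [CommRing R] [Algebra k R] (d : ℕ) : Type u :=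
  {I : Ideal (BaseChange k A R) // IsFlatFamily R (BaseChange k A R) d I}

variable {k}

/-- the morphisms `Spec R ⟶ H` over `k` -/
def Pt {H : Scheme.{u}} (s : H ⟶ Spec (CommRingCat.of k)) (R : Type u) [CommRing R]
    [Algebra k R] : Type u :=
  {f : Spec (CommRingCat.of R) ⟶ H // f ≫ s = Spec.map (CommRingCat.ofHom (algebraMap k R))}

/-- `f' : Spec R' ⟶ H` is the composition of `Spec φ : Spec R' ⟶ Spec R` and `f` -/
def IsPullback {H : Scheme.{u}} {R R' : Type u} [CommRing R] [Algebra k R] [CommRing R']
    [Algebra k R'] (φ : R →ₐ[k] R') (f : Spec (CommRingCat.of R) ⟶ H)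
    (f' : Spec (CommRingCat.of R') ⟶ H) : Prop :=
  f' = Spec.map (CommRingCat.ofHom φ.toRingHom) ≫ f

variable (k)

/-- A `k`-scheme `H` represents the Hilbert functor of `d` points of `Spec A` (on affine
`k`-schemes, which is enough since the functor is a Zariski sheaf): natural bijections between
the morphisms `Spec R ⟶ H` over `k` and the flat families parametrised by `Spec R`. -/
def IsHilbertScheme (d : ℕ) (H : Scheme.{u}) (s : H ⟶ Spec (CommRingCat.of k)) : Prop :=
  ∃ fam : ∀ (R : Type u) [CommRing R] [Algebra k R], Pt s R → HilbFam k A R d,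
    (∀ (R : Type u) [CommRing R] [Algebra k R], Function.Bijective (fam R)) ∧
    ∀ (R R' : Type u) [CommRing R] [Algebra k R] [CommRing R'] [Algebra k R'] (φ : R →ₐ[k] R')
      (f : Pt s R) (f' : Pt s R'), IsPullback φ f.1 f'.1 →
      (fam R' f').1 = (fam R f).1.map (baseMap k A φ)

end Functor

/-! ### The surface -/

section Surface
variable (k : Type u) [Field k]

/-- the polynomial `z^2 - (x^4 + y^4)` -/
noncomputable def surfPoly : MvPolynomial (Fin 3) k :=
  MvPolynomial.X 2 ^ 2 - (MvPolynomial.X 0 ^ 4 + MvPolynomial.X 1 ^ 4)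

/-- the ideal generated by `z^2 - (x^4 + y^4)` -/
noncomputable def surfIdeal : Ideal (MvPolynomial (Fin 3) k) := Ideal.span {surfPoly k}

/-- the coordinate ring `k[x,y,z]/(z^2 - (x^4 + y^4))` of the surface -/
def SurfRing : Type u := MvPolynomial (Fin 3) k ⧸ surfIdeal k

noncomputable instance : CommRing (SurfRing k) := Ideal.Quotient.commRing (surfIdeal k)

noncomputable instance : Algebra k (SurfRing k) := Ideal.Quotient.algebra k

/-- the quotient map -/
noncomputable def surfMk : MvPolynomial (Fin 3) k →+* SurfRing k := Ideal.Quotient.mk (surfIdeal k)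

/-- the coordinate functions on the surface -/
noncomputable def coord (i : Fin 3) : SurfRing k := surfMk k (MvPolynomial.X i)

/-- the ideal `(x,y,z)` of the origin -/
noncomputable def origin : Ideal (SurfRing k) := Ideal.span (Set.range (coord k))

end Surface

end Pool.Agent.H12.HF
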